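import Pool.Agent.K4H65.EM.Spec

set_option autoImplicit false

namespace Pool.Agent.K4H65.EM

open Finset

theorem met : S_GEN → S_MET := by
  classical
  intro hgen n G
  obtain ⟨w, hsymm, hw, hlin⟩ := hgen n
  set ρ : Fin n → Fin n → ℝ := fun x y => if x = y then 0 else if G.Adj x y then w x y else 1
    with hρ
  have hρ0 : ∀ x, ρ x x = 0 := fun x => by simp [hρ]
  have hρadj : ∀ x y, G.Adj x y → ρ x y = w x y := fun x y h => by
    simp only [hρ]
    rw [if_neg h.ne, if_pos h]
  have hρge : ∀ x y, x ≠ y → 1 ≤ ρ x y := fun x y h => by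
    simp only [hρ]
    rw [if_neg h]
    split_ifs with h1
    · linarith [(hw x y).1]
    · exact le_rfl
  have hρlt : ∀ x y, ρ x y < 2 := fun x y => by
    simp only [hρ]
    split_ifs with h1 h2
    · norm_num
    · exact (hw x y).2
    · norm_num
  have hρsymm : ∀ x y, ρ x y = ρ y x := fun x y => by
    simp only [hρ]
    by_cases h : x = y
    · subst h; rfl
    · rw [if_neg h, if_neg (Ne.symm h), G.adj_comm y x, hsymm x y]
  have hρnadj : ∀ x y, 1 < ρ x y → G.Adj x y := fun x y h => by
    by_contra hn
    simp only [hρ] at h
    split_ifs at h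
    · linarith
    · linarith
  refine ⟨ρ, ⟨hρ0, fun x y h => lt_of_lt_of_le one_pos (hρge x y h), hρsymm, ?_⟩, ?_⟩
  · intro x y z
    by_cases hxy : x = y
    · subst hxy
      rw [hρ0]; linarith
    · by_cases hyz : y = z
      · subst hyz
        rw [hρ0]; linarith
      · linarith [hρge x y hxy, hρge y z hyz, hρlt x z]
  · rintro d ⟨f, hf⟩
    have hle : ∀ x y i, f x i - f y i ≤ ρ x y := by
      intro x y i
      rw [← hf x y]
      have h1 := norm_le_pi_norm (f x - f y) i
      rw [Pi.sub_apply, Real.norm_eq_abs] at h1
      exact (le_abs_self _).trans h1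
    set S : Fin d → Finset (Fin n × Fin n) := fun i =>
      univ.filter fun e => G.Adj e.1 e.2 ∧ f e.2 i - f e.1 i = w e.1 e.2 with hS
    have hmem : ∀ i a b, (a, b) ∈ S i ↔ G.Adj a b ∧ f b i - f a i = w a b := by
      intro i a b
      simp [hS]
    refine ⟨S, ?_, ?_, ?_⟩
    · intro x y hxy
      have hpos : 0 < w x y := by linarith [(hw x y).1]
      have h1 : ∃ i, w x y ≤ |f x i - f y i| := by
        by_contra hcon
        push_neg at hcon
        have h2 : ‖f x - f y‖ < w x y := by
          rw [pi_norm_lt_iff hpos]
          intro i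
          rw [Pi.sub_apply, Real.norm_eq_abs]
          exact hcon i
        rw [hf, hρadj x y hxy] at h2
        exact lt_irrefl _ h2
      obtain ⟨i, hi⟩ := h1
      refine ⟨i, ?_⟩
      have h3 := hle x y i
      have h4 := hle y x i
      rw [hρadj x y hxy] at h3
      rw [hρsymm y x, hρadj x y hxy] at h4
      rcases le_total 0 (f x i - f y i) with h | h
      · right
        rw [abs_of_nonneg h] at hi
        rw [hmem]
        exact ⟨hxy.symm, by rw [hsymm y x]; linarith⟩
      · left
        rw [abs_of_nonpos h] at hi
        rw [hmem]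
        exact ⟨hxy, by linarith⟩
    · intro i a b a' b' h h'
      rw [hmem] at h h'
      apply hρnadj
      have h1 := hle b' a i
      have h2 := hle b a' i
      have h3 := hρlt b a'
      have h4 := (hw a b).1
      have h5 := (hw a' b').1
      rw [hρsymm a b']
      linarith [h.2, h'.2]
    · intro i T hT
      -- the weights of T are linearly independent
      have hTS : ∀ e ∈ T, G.Adj e.1 e.2 ∧ f e.2 i - f e.1 i = w e.1 e.2 := by
        intro e he
        exact (hmem i e.1 e.2).1 (hT he)
      let φ : T → {e : Fin n × Fin n // e.1 < e.2} := fun e =>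
        ⟨(min e.1.1 e.1.2, max e.1.1 e.1.2), by
          have := (hTS e.1 e.2).1.ne
          exact min_lt_max.2 this⟩
      have hφ : ∀ e : T, w (φ e).1.1 (φ e).1.2 = w e.1.1 e.1.2 := by
        intro e
        simp only [φ]
        rcases le_total e.1.1 e.1.2 with h | h
        · rw [min_eq_left h, max_eq_right h]
        · rw [min_eq_right h, max_eq_left h, hsymm]
      have hinj : Function.Injective φ := by
        rintro ⟨⟨a, b⟩, he⟩ ⟨⟨a', b'⟩, he'⟩ h
        have h1 : min a b = min a' b' := congrArg (fun t => t.1.1) h
        have h2 : max a b = max a' b' := congrArg (fun t => t.1.2) h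
        have k := hTS _ he
        have k' := hTS _ he'
        simp only at k k'
        have hcase : (a = a' ∧ b = b') ∨ (a = b' ∧ b = a') := by
          rcases le_total a b with h3 | h3 <;> rcases le_total a' b' with h4 | h4 <;>
            simp only [min_eq_left h3, max_eq_right h3, min_eq_left h4, max_eq_right h4,
              min_eq_right h3, max_eq_left h3, min_eq_right h4, max_eq_left h4] at h1 h2
          · exact Or.inl ⟨h1, h2⟩
          · exact Or.inr ⟨h1, h2⟩
          · exact Or.inr ⟨h2, h1⟩
          · exact Or.inl ⟨h2, h1⟩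
        rcases hcase with ⟨rfl, rfl⟩ | ⟨rfl, rfl⟩
        · rfl
        · exfalso
          have h5 := (hw a b).1
          have h6 := (hw b a).1
          linarith [k.2, k'.2]
      have hlin2 : LinearIndependent ℚ (fun e : T => w e.1.1 e.1.2) := by
        have := hlin.comp φ hinj
        have e2 : ((fun e : {e : Fin n × Fin n // e.1 < e.2} => w e.1.1 e.1.2) ∘ φ) =
            fun e : T => w e.1.1 e.1.2 := funext hφ
        rwa [e2] at this
      set V : Finset ℝ := ((T.image Prod.fst) ∪ (T.image Prod.snd)).image (fun z => f z i) with hV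
      have hspan : Submodule.span ℚ (Set.range (fun e : T => w e.1.1 e.1.2)) ≤
          Submodule.span ℚ (V : Set ℝ) := by
        rw [Submodule.span_le]
        rintro _ ⟨e, rfl⟩
        have h1 := (hTS e.1 e.2).2
        have ha : f e.1.1 i ∈ Submodule.span ℚ (V : Set ℝ) := by
          apply Submodule.subset_span
          rw [Finset.mem_coe, hV]
          exact Finset.mem_image_of_mem _ (Finset.mem_union_left _
            (Finset.mem_image_of_mem _ e.2))
        have hb : f e.1.2 i ∈ Submodule.span ℚ (V : Set ℝ) := by
          apply Submodule.subset_span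
          rw [Finset.mem_coe, hV]
          exact Finset.mem_image_of_mem _ (Finset.mem_union_right _
            (Finset.mem_image_of_mem _ e.2))
        show w e.1.1 e.1.2 ∈ _
        rw [← h1]
        exact Submodule.sub_mem _ hb ha
      have h1 := finrank_span_eq_card hlin2
      have h2 : Module.finrank ℚ (Submodule.span ℚ (Set.range (fun e : T => w e.1.1 e.1.2))) ≤
          Module.finrank ℚ (Submodule.span ℚ (V : Set ℝ)) :=
        Submodule.finrank_mono hspan
      have h3 : Module.finrank ℚ (Submodule.span ℚ (V : Set ℝ)) ≤ V.card :=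
        finrank_span_finset_le_card V
      have h4 : V.card ≤ ((T.image Prod.fst) ∪ (T.image Prod.snd)).card := Finset.card_image_le
      have h5 := Finset.card_union_le (T.image Prod.fst) (T.image Prod.snd)
      have h6 : Fintype.card T = T.card := Fintype.card_coe T
      omega

end Pool.Agent.K4H65.EM
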