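import Pool.Agent.K4H49.IR.Spec

/-!
# The number of stars through a vertex (piece [STAR] of MP_5484c7_co)
-/

set_option autoImplicit false

open Finset

namespace Pool.Agent.K4H16.IR

open Pool.Agent.K4H49.IR

/-- the star with centre `c` and leaves `L`, as a subgraph -/
def St {V : Type} (G : SimpleGraph V) (c : V) (L : Finset V) : G.Subgraph where
  verts := {a | a = c ∨ a ∈ L}
  Adj a b := G.Adj a b ∧ ((a = c ∧ b ∈ L) ∨ (b = c ∧ a ∈ L))
  adj_sub h := h.1
  edge_vert := by
    intro a b h
    rcases h.2 with h | h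
    · exact Or.inl h.1
    · exact Or.inr h.2
  symm := ⟨fun a b h => ⟨h.1.symm, h.2.symm⟩⟩

lemma st_iso {V : Type} (G : SimpleGraph V) (c : V) (L : Finset V) (n : ℕ)
    (hL : ∀ l ∈ L, G.Adj c l) (hn : L.card = n) : Nonempty (K4H49.IR.star n ≃g (St G c L).coe) := by
  classical
  let e := L.equivFinOfCardEq hn
  have hc : ∀ l ∈ L, l ≠ c := fun l hl h => (hL l hl).ne h.symm
  let f : Fin 1 ⊕ Fin n → (St G c L).verts := fun u => match u with
    | .inl _ => ⟨c, Or.inl rfl⟩
    | .inr i => ⟨(e.symm i).1, Or.inr (e.symm i).2⟩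
  have hf : Function.Bijective f := by
    constructor
    · rintro (a | i) (b | j) h
      · rw [Subsingleton.elim a b]
      · exact absurd (congrArg Subtype.val h).symm (hc _ (e.symm j).2)
      · exact absurd (congrArg Subtype.val h) (hc _ (e.symm i).2)
      · have h1 : (f (.inr i)).1 = (f (.inr j)).1 := by rw [h]
        have h2 : e.symm i = e.symm j := Subtype.ext h1
        rw [e.symm.injective h2]
    · rintro ⟨a, ha⟩
      rcases ha with ha | ha
      · exact ⟨.inl 0, Subtype.ext ha.symm⟩
      · refine ⟨.inr (e ⟨a, ha⟩), Subtype.ext ?_⟩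
        simp [f]
  refine ⟨⟨Equiv.ofBijective f hf, ?_⟩⟩
  rintro (a | i) (b | j)
  · simp only [Equiv.ofBijective_apply, SimpleGraph.Subgraph.coe_adj, f, St,
      completeBipartiteGraph_adj]
    constructor
    · intro h
      exact absurd rfl h.1.ne
    · intro h
      simp at h
  · simp only [Equiv.ofBijective_apply, SimpleGraph.Subgraph.coe_adj, f, St,
      completeBipartiteGraph_adj]
    constructor
    · intro _
      simp
    · intro _
      exact ⟨hL _ (e.symm j).2, Or.inl ⟨rfl, (e.symm j).2⟩⟩
  · simp only [Equiv.ofBijective_apply, SimpleGraph.Subgraph.coe_adj, f, St,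
      completeBipartiteGraph_adj]
    constructor
    · intro _
      simp
    · intro _
      exact ⟨(hL _ (e.symm i).2).symm, Or.inr ⟨rfl, (e.symm i).2⟩⟩
  · simp only [Equiv.ofBijective_apply, SimpleGraph.Subgraph.coe_adj, f, St,
      completeBipartiteGraph_adj]
    constructor
    · intro h
      rcases h.2 with h | h
      · exact absurd h.1 (hc _ (e.symm i).2)
      · exact absurd h.1 (hc _ (e.symm j).2)
    · intro h
      simp at h

lemma eq_st {V : Type} [DecidableEq V] (G : SimpleGraph V) (H : G.Subgraph) (n : ℕ)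
    (φ : K4H49.IR.star n ≃g H.coe) :
    ∃ c : V, ∃ L : Finset V, (∀ l ∈ L, G.Adj c l) ∧ L.card = n ∧ H = St G c L := by
  classical
  have hadj : ∀ u v, H.Adj (φ u).1 (φ v).1 ↔ (K4H49.IR.star n).Adj u v := by
    intro u v
    rw [← SimpleGraph.Subgraph.coe_adj]
    exact φ.map_rel_iff
  refine ⟨(φ (.inl 0)).1, univ.image (fun i : Fin n => (φ (.inr i)).1), ?_, ?_, ?_⟩
  · intro l hl
    obtain ⟨i, -, rfl⟩ := Finset.mem_image.1 hl
    exact H.adj_sub ((hadj _ _).2 (by simp))
  · rw [Finset.card_image_of_injective, Finset.card_univ, Fintype.card_fin]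
    intro i j h
    have := φ.injective (Subtype.ext h)
    simpa using this
  · apply SimpleGraph.Subgraph.ext
    · ext a
      constructor
      · intro ha
        obtain ⟨u, hu⟩ := φ.surjective ⟨a, ha⟩
        have hu' : (φ u).1 = a := by rw [hu]
        rcases u with z | i
        · rw [Subsingleton.elim z 0] at hu'
          exact Or.inl hu'.symm
        · exact Or.inr (Finset.mem_image.2 ⟨i, Finset.mem_univ _, hu'⟩)
      · rintro (ha | ha)
        · rw [ha]; exact (φ _).2
        · obtain ⟨i, -, rfl⟩ := Finset.mem_image.1 ha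
          exact (φ _).2
    · ext a b
      constructor
      · intro h
        refine ⟨H.adj_sub h, ?_⟩
        obtain ⟨u, hu⟩ := φ.surjective ⟨a, H.edge_vert h⟩
        obtain ⟨v, hv⟩ := φ.surjective ⟨b, H.edge_vert h.symm⟩
        have hu' : (φ u).1 = a := by rw [hu]
        have hv' : (φ v).1 = b := by rw [hv]
        rw [← hu', ← hv', hadj] at h
        rcases u with z | i <;> rcases v with w | j
        · simp at h
        · left
          rw [Subsingleton.elim z 0] at hu'
          exact ⟨hu'.symm, Finset.mem_image.2 ⟨j, Finset.mem_univ _, hv'⟩⟩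
        · right
          rw [Subsingleton.elim w 0] at hv'
          exact ⟨hv'.symm, Finset.mem_image.2 ⟨i, Finset.mem_univ _, hu'⟩⟩
        · simp at h
      · rintro ⟨-, ⟨h1, h2⟩ | ⟨h1, h2⟩⟩
        · obtain ⟨i, -, rfl⟩ := Finset.mem_image.1 h2
          rw [h1]
          exact (hadj _ _).2 (by simp)
        · obtain ⟨i, -, rfl⟩ := Finset.mem_image.1 h2
          rw [h1]
          exact (hadj _ _).2 (by simp)

lemma st_inj {V : Type} (G : SimpleGraph V) (n : ℕ) (hn : 2 ≤ n) {c c' : V} {L L' : Finset V}
    (hL : ∀ l ∈ L, G.Adj c l) (hcard : L.card = n)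
    (hL' : ∀ l ∈ L', G.Adj c' l) (h : St G c L = St G c' L') : c = c' ∧ L = L' := by
  classical
  have hA : ∀ a b, (St G c L).Adj a b ↔ (St G c' L').Adj a b := fun a b => by rw [h]
  have hcc : c = c' := by
    by_contra hne
    have : L ⊆ {c'} := by
      intro l hl
      have h1 := (hA c l).1 ⟨hL l hl, Or.inl ⟨rfl, hl⟩⟩
      rcases h1.2 with h2 | h2
      · exact absurd h2.1 hne
      · exact Finset.mem_singleton.2 h2.1
    have := Finset.card_le_card this
    rw [Finset.card_singleton] at this
    omega
  subst hcc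
  refine ⟨rfl, ?_⟩
  ext l
  constructor
  · intro hl
    have h1 := (hA c l).1 ⟨hL l hl, Or.inl ⟨rfl, hl⟩⟩
    rcases h1.2 with h2 | h2
    · exact h2.2
    · exact absurd h2.1.symm h1.1.ne
  · intro hl
    have h1 := (hA c l).2 ⟨hL' l hl, Or.inl ⟨rfl, hl⟩⟩
    rcases h1.2 with h2 | h2
    · exact h2.2
    · exact absurd h2.1.symm h1.1.ne

/-- the pairs (centre, leaves) of the stars through `x` -/
def T {V : Type} [Fintype V] [DecidableEq V] (G : SimpleGraph V) [DecidableRel G.Adj] (n : ℕ)
    (x : V) : Finset (V × Finset V) :=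
  univ.filter fun p => p.2 ⊆ G.neighborFinset p.1 ∧ p.2.card = n ∧ (x = p.1 ∨ x ∈ p.2)

lemma fdeg_eq_card {V : Type} [Fintype V] [DecidableEq V] (G : SimpleGraph V)
    [DecidableRel G.Adj] (n : ℕ) (hn : 2 ≤ n) (x : V) :
    fdeg (K4H49.IR.star n) G x = (T G n x).card := by
  classical
  rw [fdeg, ← Set.ncard_coe_finset (T G n x)]
  have himg : {H : G.Subgraph | x ∈ H.verts ∧ Nonempty (K4H49.IR.star n ≃g H.coe)} =
      (fun p : V × Finset V => St G p.1 p.2) '' (T G n x : Set (V × Finset V)) := by
    ext H
    constructor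
    · rintro ⟨hx, ⟨φ⟩⟩
      obtain ⟨c, L, h1, h2, h3⟩ := eq_st G H n φ
      refine ⟨(c, L), ?_, h3.symm⟩
      have hx' : x = c ∨ x ∈ L := by
        rw [h3] at hx
        exact hx
      simp only [T, Finset.coe_filter, Finset.mem_univ, true_and, Set.mem_setOf_eq]
      exact ⟨fun l hl => (G.mem_neighborFinset c l).2 (h1 l hl), h2, hx'⟩
    · rintro ⟨⟨c, L⟩, hp, rfl⟩
      simp only [T, Finset.coe_filter, Finset.mem_univ, true_and, Set.mem_setOf_eq] at hp
      obtain ⟨h1, h2, h3⟩ := hp
      exact ⟨h3, st_iso G c L n (fun l hl => (G.mem_neighborFinset c l).1 (h1 hl)) h2⟩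
  rw [himg, Set.ncard_image_of_injOn]
  rintro ⟨c, L⟩ hp ⟨c', L'⟩ hp' h
  simp only [T, Finset.coe_filter, Finset.mem_univ, true_and, Set.mem_setOf_eq] at hp hp'
  obtain ⟨h1, h2⟩ := st_inj G n hn (fun l hl => (G.mem_neighborFinset c l).1 (hp.1 hl)) hp.2.1
    (fun l hl => (G.mem_neighborFinset c' l).1 (hp'.1 hl)) h
  rw [h1, h2]

lemma card_fibre {V : Type} [Fintype V] [DecidableEq V] (G : SimpleGraph V)
    [DecidableRel G.Adj] (n : ℕ) (hn : 2 ≤ n) (x c : V) :
    (univ.filter fun L : Finset V =>
      L ⊆ G.neighborFinset c ∧ L.card = n ∧ (x = c ∨ x ∈ L)).card =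
    (if c = x then (G.degree x).choose n else 0) +
      (if c ∈ G.neighborFinset x then (G.degree c - 1).choose (n - 1) else 0) := by
  classical
  by_cases hcx : c = x
  · subst hcx
    have h1 : (univ.filter fun L : Finset V =>
        L ⊆ G.neighborFinset c ∧ L.card = n ∧ (c = c ∨ c ∈ L)) =
        (G.neighborFinset c).powersetCard n := by
      ext L
      simp [Finset.mem_powersetCard]
    rw [h1, Finset.card_powersetCard, G.card_neighborFinset_eq_degree]
    simp
  · rw [if_neg hcx, zero_add]
    by_cases hadj : c ∈ G.neighborFinset x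
    · rw [if_pos hadj]
      have hxc : x ∈ G.neighborFinset c := by
        rw [G.mem_neighborFinset] at hadj ⊢
        exact hadj.symm
      have h1 : (univ.filter fun L : Finset V =>
          L ⊆ G.neighborFinset c ∧ L.card = n ∧ (x = c ∨ x ∈ L)) =
          (((G.neighborFinset c).erase x).powersetCard (n - 1)).image (insert x) := by
        ext L
        simp only [Finset.mem_filter, Finset.mem_univ, true_and, Finset.mem_image,
          Finset.mem_powersetCard]
        constructor
        · rintro ⟨hL, hc, hx⟩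
          rcases hx with hx | hx
          · exact absurd hx.symm hcx
          · refine ⟨L.erase x, ⟨Finset.erase_subset_erase x hL, ?_⟩, Finset.insert_erase hx⟩
            rw [Finset.card_erase_of_mem hx, hc]
        · rintro ⟨K, ⟨hK, hc⟩, rfl⟩
          have hxK : x ∉ K := fun h => by
            have := hK h
            simp at this
          refine ⟨?_, ?_, Or.inr (Finset.mem_insert_self _ _)⟩
          · rw [Finset.insert_subset_iff]
            exact ⟨hxc, hK.trans (Finset.erase_subset _ _)⟩
          · rw [Finset.card_insert_of_notMem hxK, hc]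
            omega
      rw [h1, Finset.card_image_of_injOn, Finset.card_powersetCard,
        Finset.card_erase_of_mem hxc, G.card_neighborFinset_eq_degree]
      intro K hK K' hK' h
      have hxK : ∀ J ∈ ((G.neighborFinset c).erase x).powersetCard (n - 1), x ∉ J := by
        intro J hJ h
        have := (Finset.mem_powersetCard.1 hJ).1 h
        simp at this
      have h2 : (insert x K).erase x = (insert x K').erase x := congrArg (fun J => J.erase x) h
      rwa [Finset.erase_insert (hxK K (by simpa using hK)),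
        Finset.erase_insert (hxK K' (by simpa using hK'))] at h2
    · rw [if_neg hadj, Finset.card_eq_zero, Finset.filter_eq_empty_iff]
      rintro L - ⟨hL, hc, hx⟩
      rcases hx with hx | hx
      · exact hcx hx.symm
      · apply hadj
        have := hL hx
        rw [G.mem_neighborFinset] at this ⊢
        exact this.symm

theorem star_count : StStar := by
  intro V _ _ G _ n hn x
  classical
  rw [fdeg_eq_card G n hn x, sn]
  have h1 : (T G n x).card = ∑ c : V, (univ.filter fun L : Finset V =>
      L ⊆ G.neighborFinset c ∧ L.card = n ∧ (x = c ∨ x ∈ L)).card := by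
    rw [T, Finset.card_filter, Fintype.sum_prod_type]
    refine Finset.sum_congr rfl fun c _ => ?_
    rw [Finset.card_filter]
  rw [h1, Finset.sum_congr rfl fun c _ => card_fibre G n hn x c, Finset.sum_add_distrib]
  congr 1
  · simp
  · rw [← Finset.sum_filter]
    congr 1
    ext c
    simp

end Pool.Agent.K4H16.IR
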