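import Pool.Agent.K4H72.Til.Spec

open Set

namespace Pool.Agent.K4H16.Til

open Pool.Agent.K4H72.Til

lemma E_sub' (v w : ℤ × ℤ) : E (v - w) = E v - E w := by
  simp only [E, Prod.fst_sub, Prod.snd_sub, Int.cast_sub]
  ring

lemma E_add' (v w : ℤ × ℤ) : E (v + w) = E v + E w := by
  simp only [E, Prod.fst_add, Prod.snd_add, Int.cast_add]
  ring

/-- the displacement -/
noncomputable def U (M : ℝ) (Φ : ℂ → ℤ × ℤ) (p : ℂ) : ℂ := (M : ℂ) * p - E (Φ p)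

/-- the reference points near the lattice point `v` -/
def N (P : Set ℂ) (D M : ℝ) (Φ : ℂ → ℤ × ℤ) (v : ℤ × ℤ) : Set ℂ :=
  {p | p ∈ P ∧ ‖E (Φ p - v)‖ ≤ M * D}

/-- the deformed lattice -/
noncomputable def gg (P : Set ℂ) (D M : ℝ) (Φ : ℂ → ℤ × ℤ) (c : Set ℂ → ℂ) (v : ℤ × ℤ) : ℂ :=
  (E v + c (U M Φ '' N P D M Φ v)) / M

structure Dat (P : Set ℂ) (D M η : ℝ) (Φ : ℂ → ℤ × ℤ) (c : Set ℂ → ℂ) : Prop where
  hD : 0 < D
  hdense : ∀ x : ℂ, ∃ p ∈ P, ‖x - p‖ ≤ D / 4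
  hM : 1 ≤ M
  hη0 : 0 ≤ η
  hη1 : η ≤ D / 8
  hη2 : η * (21 + 8 / D) ≤ 1 / 20
  lip : ∀ p ∈ P, ∀ p' ∈ P, ‖U M Φ p - U M Φ p'‖ ≤ η * (1 + 4 * ‖p - p'‖ / D)
  ne : ∀ v : ℤ × ℤ, ∃ p ∈ P, ‖E (Φ p - v)‖ ≤ M * D
  c1 : ∀ A : Set ℂ, A.Finite → A.Nonempty → c A ∈ A
  c2 : ∀ (A : Set ℂ) (t : ℂ), A.Finite → A.Nonempty → c ((fun z => z + t) '' A) = c A + t
  fin : ∀ q ∈ P, {p | p ∈ P ∧ ‖p - q‖ ≤ 8 * D}.Finite
  hom : ∀ p ∈ P, ∀ q ∈ P, ∀ p' ∈ P, ∀ q' ∈ P, p - q = p' - q' → Φ p - Φ q = Φ p' - Φ q'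
  one : ∀ v : ℤ × ℤ, v ≠ 0 → 1 ≤ ‖E v‖

variable {P : Set ℂ} {D M η : ℝ} {Φ : ℂ → ℤ × ℤ} {c : Set ℂ → ℂ}

lemma Dat.lip' (h : Dat P D M η Φ c) {p p' : ℂ} (hp : p ∈ P) (hp' : p' ∈ P) :
    ‖U M Φ p - U M Φ p'‖ ≤ D / 8 + ‖p - p'‖ / 2 := by
  have h1 := h.lip p hp p' hp'
  have hD := h.hD
  have h2 : η * (1 + 4 * ‖p - p'‖ / D) ≤ (D / 8) * (1 + 4 * ‖p - p'‖ / D) :=
    mul_le_mul_of_nonneg_right h.hη1 (by positivity)
  have h3 : (D / 8) * (1 + 4 * ‖p - p'‖ / D) = D / 8 + ‖p - p'‖ / 2 := by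
    field_simp
    ring
  linarith

lemma Dat.dist (h : Dat P D M η Φ c) {p p' : ℂ} (hp : p ∈ P) (hp' : p' ∈ P) :
    M * ‖p - p'‖ ≤ 2 * ‖E (Φ p - Φ p')‖ + D / 4 := by
  have h1 := h.lip' hp hp'
  have hM := h.hM
  have h2 : (M : ℂ) * (p - p') = E (Φ p - Φ p') + (U M Φ p - U M Φ p') := by
    rw [E_sub', U, U]; ring
  have h3 : M * ‖p - p'‖ = ‖(M : ℂ) * (p - p')‖ := by
    rw [norm_mul, Complex.norm_real, Real.norm_of_nonneg (by linarith)]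
  have h4 : M * ‖p - p'‖ ≤ ‖E (Φ p - Φ p')‖ + ‖U M Φ p - U M Φ p'‖ := by
    rw [h3, h2]
    exact norm_add_le _ _
  have h5 : ‖p - p'‖ ≤ M * ‖p - p'‖ := le_mul_of_one_le_left (norm_nonneg _) hM
  linarith

lemma Dat.dist2 (h : Dat P D M η Φ c) {v w : ℤ × ℤ} {p p' : ℂ} (hp : p ∈ N P D M Φ v)
    (hp' : p' ∈ N P D M Φ w) : ‖p - p'‖ ≤ 5 * D + 2 * ‖E (v - w)‖ := by
  have h1 := h.dist hp.1 hp'.1
  have hM := h.hM
  have hD := h.hD
  have h2 : ‖E (Φ p - Φ p')‖ ≤ 2 * (M * D) + ‖E (v - w)‖ := by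
    have e : E (Φ p - Φ p') = E (Φ p - v) - E (Φ p' - w) + E (v - w) := by
      simp only [E_sub']; ring
    rw [e]
    have := norm_add_le (E (Φ p - v) - E (Φ p' - w)) (E (v - w))
    have := norm_sub_le (E (Φ p - v)) (E (Φ p' - w))
    have := hp.2
    have := hp'.2
    linarith
  have h3 : M * ‖p - p'‖ ≤ M * (5 * D + 2 * ‖E (v - w)‖) := by
    have h4 : D ≤ M * D := le_mul_of_one_le_left hD.le hM
    have h5 : ‖E (v - w)‖ ≤ M * ‖E (v - w)‖ := le_mul_of_one_le_left (norm_nonneg _) hM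
    nlinarith
  exact le_of_mul_le_mul_left h3 (by linarith)

lemma Dat.N_nonempty (h : Dat P D M η Φ c) (v : ℤ × ℤ) : (N P D M Φ v).Nonempty := by
  obtain ⟨p, hp, hp'⟩ := h.ne v
  exact ⟨p, hp, hp'⟩

lemma E_zero' : E 0 = 0 := by simp [E]

lemma Dat.N_finite (h : Dat P D M η Φ c) (v : ℤ × ℤ) : (N P D M Φ v).Finite := by
  obtain ⟨q, hq⟩ := h.N_nonempty v
  refine (h.fin q hq.1).subset ?_
  intro p hp
  refine ⟨hp.1, ?_⟩
  have h1 := h.dist2 hp hq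
  rw [sub_self, E_zero', norm_zero] at h1
  have := h.hD
  linarith

/-- the chosen point -/
lemma Dat.chosen (h : Dat P D M η Φ c) (v : ℤ × ℤ) :
    ∃ p ∈ N P D M Φ v, c (U M Φ '' N P D M Φ v) = U M Φ p := by
  have := h.c1 (U M Φ '' N P D M Φ v) ((h.N_finite v).image _) ((h.N_nonempty v).image _)
  obtain ⟨p, hp, he⟩ := this
  exact ⟨p, hp, he.symm⟩

lemma Dat.def1 (h : Dat P D M η Φ c) : Def1 (1 / M) (gg P D M Φ c) := by
  have hM := h.hM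
  have hM0 : 0 < M := by linarith
  have hD := h.hD
  refine ⟨by positivity, ?_⟩
  intro v w
  by_cases hvw : v = w
  · subst hvw
    simp [E_zero']
  obtain ⟨p, hp, hcp⟩ := h.chosen v
  obtain ⟨q, hq, hcq⟩ := h.chosen w
  have h1 := h.lip p hp.1 q hq.1
  have h2 := h.dist2 hp hq
  have h3 := h.one (v - w) (sub_ne_zero.2 hvw)
  have hMc : (M : ℂ) ≠ 0 := by exact_mod_cast hM0.ne'
  have e : gg P D M Φ c v - gg P D M Φ c w - ((1 / M : ℝ) : ℂ) * E (v - w) =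
      (U M Φ p - U M Φ q) / M := by
    rw [gg, gg, hcp, hcq, E_sub']
    push_cast
    field_simp
    ring
  rw [e, norm_div, Complex.norm_real, Real.norm_of_nonneg hM0.le]
  have h4 : ‖U M Φ p - U M Φ q‖ ≤ 1 / 20 * ‖E (v - w)‖ := by
    have h5 : 1 + 4 * ‖p - q‖ / D ≤ (21 + 8 / D) * ‖E (v - w)‖ := by
      have h6 : 4 * ‖p - q‖ / D ≤ 20 + 8 / D * ‖E (v - w)‖ := by
        rw [div_le_iff₀ hD]
        have : (20 + 8 / D * ‖E (v - w)‖) * D = 20 * D + 8 * ‖E (v - w)‖ := by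
          field_simp
        rw [this]
        linarith
      nlinarith
    calc ‖U M Φ p - U M Φ q‖ ≤ η * (1 + 4 * ‖p - q‖ / D) := h1
      _ ≤ η * ((21 + 8 / D) * ‖E (v - w)‖) := mul_le_mul_of_nonneg_left h5 h.hη0
      _ = (η * (21 + 8 / D)) * ‖E (v - w)‖ := by ring
      _ ≤ 1 / 20 * ‖E (v - w)‖ := mul_le_mul_of_nonneg_right h.hη2 (norm_nonneg _)
  calc ‖U M Φ p - U M Φ q‖ / M ≤ (1 / 20 * ‖E (v - w)‖) / M :=
        div_le_div_of_nonneg_right h4 hM0.le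
    _ = 1 / 20 * (1 / M) * ‖E (v - w)‖ := by ring

/-- a point of `N v` is near to `g v` -/
lemma Dat.near_g (h : Dat P D M η Φ c) {v : ℤ × ℤ} {p : ℂ} (hp : p ∈ N P D M Φ v) :
    ‖p - gg P D M Φ c v‖ ≤ 4 * D := by
  have hM := h.hM
  have hM0 : 0 < M := by linarith
  have hD := h.hD
  obtain ⟨q, hq, hcq⟩ := h.chosen v
  have h1 := h.lip' hp.1 hq.1
  have h2 := h.dist2 hp hq
  rw [sub_self, E_zero', norm_zero] at h2
  have hMc : (M : ℂ) ≠ 0 := by exact_mod_cast hM0.ne'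
  have e : (M : ℂ) * (p - gg P D M Φ c v) = E (Φ p - v) + (U M Φ p - U M Φ q) := by
    rw [gg, hcq, E_sub']
    have : (M : ℂ) * (p - (E v + U M Φ q) / M) = M * p - (E v + U M Φ q) := by
      field_simp
    rw [this]
    simp only [U]
    ring
  have h3 : M * ‖p - gg P D M Φ c v‖ = ‖(M : ℂ) * (p - gg P D M Φ c v)‖ := by
    rw [norm_mul, Complex.norm_real, Real.norm_of_nonneg hM0.le]
  have h4 : M * ‖p - gg P D M Φ c v‖ ≤ M * (4 * D) := by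
    rw [h3, e]
    have h5 := norm_add_le (E (Φ p - v)) (U M Φ p - U M Φ q)
    have h6 := hp.2
    have h7 : D ≤ M * D := le_mul_of_one_le_left hD.le hM
    linarith
  exact le_of_mul_le_mul_left h4 hM0

lemma Dat.norm_E_le (h : Dat P D M η Φ c) {p p' : ℂ} (hp : p ∈ P) (hp' : p' ∈ P) :
    ‖E (Φ p - Φ p')‖ ≤ M * ‖p - p'‖ + (D / 8 + ‖p - p'‖ / 2) := by
  have hM0 : 0 < M := by linarith [h.hM]
  have e : E (Φ p - Φ p') = (M : ℂ) * (p - p') - (U M Φ p - U M Φ p') := by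
    rw [E_sub', U, U]; ring
  rw [e]
  have h1 := norm_sub_le ((M : ℂ) * (p - p')) (U M Φ p - U M Φ p')
  rw [norm_mul, Complex.norm_real, Real.norm_of_nonneg hM0.le] at h1
  linarith [h.lip' hp hp']

lemma Dat.loc (h : Dat P D M η Φ c) (R2 : ℝ) : ∃ R : ℝ, ∀ x y : ℂ,
    (∀ p : ℂ, ‖p‖ < R → (x + p ∈ P ↔ y + p ∈ P)) →
      ∃ τ : ℤ × ℤ, ∀ v, ‖gg P D M Φ c v - x‖ ≤ R2 →
        gg P D M Φ c (v + τ) = gg P D M Φ c v + (y - x) := by
  have hM := h.hM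
  have hM0 : 0 < M := by linarith
  have hD := h.hD
  -- distances
  set R3 : ℝ := |R2| + 5 * D with hR3
  set R4 : ℝ := M * D + (M * (R3 + D) + (D / 8 + (R3 + D) / 2)) with hR4
  set R5 : ℝ := 2 * (M * D + R4) + D / 4 with hR5
  have hR3' : 0 ≤ R3 := by positivity
  have hR4' : 0 ≤ R4 := by positivity
  have hR5' : 0 ≤ R5 := by positivity
  refine ⟨R3 + R5 + D, ?_⟩
  intro x y hxy
  obtain ⟨p1, hp1, hxp1⟩ := h.hdense x
  have hp1' : y + (p1 - x) ∈ P := by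
    refine (hxy (p1 - x) ?_).1 (by simpa using hp1)
    rw [norm_sub_rev]
    linarith
  set q1 := y + (p1 - x) with hq1
  refine ⟨Φ q1 - Φ p1, ?_⟩
  intro v hv
  set τ := Φ q1 - Φ p1 with hτ
  have hΦ : ∀ p ∈ P, p + (y - x) ∈ P → Φ (p + (y - x)) = Φ p + τ := by
    intro p hp hp'
    have := h.hom (p + (y - x)) hp' q1 hp1' p hp p1 hp1 (by rw [hq1]; ring)
    rw [hτ]
    have h2 : Φ (p + (y - x)) = Φ p - Φ p1 + Φ q1 := by
      rw [← this]; abel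
    rw [h2]; abel
  -- the points of N v are near to x
  have hNv : ∀ p ∈ N P D M Φ v, ‖p - x‖ < R3 := by
    intro p hp
    have h1 := h.near_g hp
    have h2 : p - x = (p - gg P D M Φ c v) + (gg P D M Φ c v - x) := by ring
    rw [h2]
    have h3 := norm_add_le (p - gg P D M Φ c v) (gg P D M Φ c v - x)
    have h4 : R2 ≤ |R2| := le_abs_self _
    linarith
  -- the vector v is near to Φ p1
  have hv1 : ‖E (v - Φ p1)‖ ≤ R4 := by
    obtain ⟨p, hp⟩ := h.N_nonempty v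
    have h1 := hNv p hp
    have h2 : ‖p - p1‖ ≤ R3 + D / 4 := by
      have e : p - p1 = (p - x) + (x - p1) := by ring
      rw [e]
      have := norm_add_le (p - x) (x - p1)
      linarith
    have h2' : ‖p - p1‖ ≤ R3 + D := by linarith
    have h3 := h.norm_E_le hp.1 hp1
    have h4 : ‖E (v - Φ p1)‖ ≤ ‖E (Φ p - v)‖ + ‖E (Φ p - Φ p1)‖ := by
      have e : E (v - Φ p1) = E (Φ p - Φ p1) - E (Φ p - v) := by
        simp only [E_sub']; ring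
      rw [e]
      have := norm_sub_le (E (Φ p - Φ p1)) (E (Φ p - v))
      linarith
    have h5 := hp.2
    have h6 : M * ‖p - p1‖ ≤ M * (R3 + D) := mul_le_mul_of_nonneg_left h2' hM0.le
    linarith
  have hNw : ∀ q ∈ N P D M Φ (v + τ), ‖q - y‖ < R5 + D := by
    intro q hq
    have h1 := h.dist hq.1 hp1'
    have h2 : ‖E (Φ q - Φ q1)‖ ≤ M * D + R4 := by
      have e : E (Φ q - Φ q1) = E (Φ q - (v + τ)) + E (v - Φ p1) := by
        rw [hτ]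
        simp only [E_sub', E_add']; ring
      rw [e]
      have h3 := norm_add_le (E (Φ q - (v + τ))) (E (v - Φ p1))
      have h4 := hq.2
      linarith
    have h3 : ‖q - q1‖ ≤ M * ‖q - q1‖ := le_mul_of_one_le_left (norm_nonneg _) hM
    have h4 : ‖q - y‖ ≤ ‖q - q1‖ + ‖x - p1‖ := by
      have e : q - y = (q - q1) - (x - p1) := by rw [hq1]; ring
      rw [e]
      exact norm_sub_le _ _
    linarith
  have hN : N P D M Φ (v + τ) = (fun z => z + (y - x)) '' N P D M Φ v := by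
    ext q
    constructor
    · intro hq
      have h1 := hNw q hq
      have h2 : x + (q - y) ∈ P := (hxy (q - y) (by linarith)).2 (by simpa using hq.1)
      refine ⟨x + (q - y), ⟨h2, ?_⟩, by ring⟩
      have h3 : x + (q - y) + (y - x) = q := by ring
      have h4 := hΦ _ h2 (by rw [h3]; exact hq.1)
      rw [h3] at h4
      have h5 := hq.2
      rw [h4] at h5
      have h6 : Φ (x + (q - y)) + τ - (v + τ) = Φ (x + (q - y)) - v := by abel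
      rwa [h6] at h5
    · rintro ⟨p, hp, rfl⟩
      have h1 := hNv p hp
      have h2 : p + (y - x) ∈ P := by
        have := (hxy (p - x) (by linarith)).1 (by simpa using hp.1)
        have e : y + (p - x) = p + (y - x) := by ring
        rwa [e] at this
      refine ⟨h2, ?_⟩
      simp only
      rw [hΦ p hp.1 h2]
      have h6 : Φ p + τ - (v + τ) = Φ p - v := by abel
      rw [h6]
      exact hp.2
  have hU : U M Φ '' N P D M Φ (v + τ) =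
      (fun z => z + ((M : ℂ) * (y - x) - E τ)) '' (U M Φ '' N P D M Φ v) := by
    rw [hN, Set.image_image, Set.image_image]
    refine Set.image_congr ?_
    intro p hp
    have h2 : p + (y - x) ∈ P := by
      have : p + (y - x) ∈ N P D M Φ (v + τ) := by rw [hN]; exact ⟨p, hp, rfl⟩
      exact this.1
    simp only [U]
    rw [hΦ p hp.1 h2, E_add']
    ring
  have hMc : (M : ℂ) ≠ 0 := by exact_mod_cast hM0.ne'
  rw [gg, gg, hU, h.c2 _ _ ((h.N_finite v).image _) ((h.N_nonempty v).image _), E_add']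
  field_simp
  ring

/-- T13 from T1, T2, T3, T4, T5 -/
theorem deform_of
    (approx : ∀ (F : Set ℂ), F.Finite → ∀ (η : ℝ), 0 < η →
      ∃ M : ℕ, 0 < M ∧ ∃ φ : AddSubgroup.closure F →+ ℤ × ℤ,
        ∀ f (hf : f ∈ F), ‖(M : ℂ) * f - E (φ ⟨f, AddSubgroup.subset_closure hf⟩)‖ ≤ η)
    (choice : ∃ c : Set ℂ → ℂ, (∀ A : Set ℂ, A.Finite → A.Nonempty → c A ∈ A) ∧
      ∀ (A : Set ℂ) (t : ℂ), A.Finite → A.Nonempty → c ((fun z => z + t) '' A) = c A + t)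
    (one : ∀ v : ℤ × ℤ, v ≠ 0 → 1 ≤ ‖E v‖)
    (lip : ∀ (P : Set ℂ) (D : ℝ), 0 < D → (∀ x : ℂ, ∃ p ∈ P, ‖x - p‖ ≤ D / 4) →
      ∀ (u : ℂ → ℂ) (η : ℝ), 0 ≤ η → (∀ p ∈ P, ∀ p' ∈ P, ‖p - p'‖ ≤ D → ‖u p - u p'‖ ≤ η) →
      ∀ p ∈ P, ∀ p' ∈ P, ‖u p - u p'‖ ≤ η * (1 + 4 * ‖p - p'‖ / D))
    (mem_closure : ∀ (P : Set ℂ) (D : ℝ), 0 < D → (∀ x : ℂ, ∃ p ∈ P, ‖x - p‖ ≤ D / 4) →
      ∀ (G : AddSubgroup ℂ), (∀ p ∈ P, ∀ p' ∈ P, ‖p - p'‖ ≤ D → p - p' ∈ G) →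
      ∀ p ∈ P, ∀ p' ∈ P, p - p' ∈ G)
    (near : ∀ (P : Set ℂ) (D : ℝ), 0 < D → (∀ x : ℂ, ∃ p ∈ P, ‖x - p‖ ≤ D / 4) →
      ∀ (Φ : ℂ → ℤ × ℤ) (M : ℝ), 1 ≤ M →
      (∀ p ∈ P, ∀ p' ∈ P, ‖p - p'‖ ≤ D → ‖(M : ℂ) * (p - p') - E (Φ p - Φ p')‖ ≤ D / 8) →
      ∀ v : ℤ × ℤ, ∃ p ∈ P, ‖E (Φ p - v)‖ ≤ M * D)
    (P : Set ℂ) (D : ℝ) (hD : 0 < D) (hdense : ∀ x : ℂ, ∃ p ∈ P, ‖x - p‖ ≤ D / 4)
    (hfin : {d : ℂ | ∃ p ∈ P, ∃ p' ∈ P, d = p - p' ∧ ‖d‖ ≤ 8 * D}.Finite) :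
    ∃ (h : ℝ) (g : ℤ × ℤ → ℂ), Def1 h g ∧ ∀ R2 : ℝ, ∃ R : ℝ, ∀ x y : ℂ,
      (∀ p : ℂ, ‖p‖ < R → (x + p ∈ P ↔ y + p ∈ P)) →
        ∃ τ : ℤ × ℤ, ∀ v, ‖g v - x‖ ≤ R2 → g (v + τ) = g v + (y - x) := by
  classical
  set F : Set ℂ := {d : ℂ | ∃ p ∈ P, ∃ p' ∈ P, d = p - p' ∧ ‖d‖ ≤ 8 * D} with hF
  set η : ℝ := min (D / 8) (1 / (20 * (21 + 8 / D))) with hη
  have hη0 : 0 < η := lt_min (by positivity) (by positivity)
  obtain ⟨M, hM0, φ, hφ⟩ := approx F hfin η hη0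
  obtain ⟨c, hc1, hc2⟩ := choice
  obtain ⟨p0, hp0, -⟩ := hdense 0
  have hG : ∀ p ∈ P, ∀ p' ∈ P, p - p' ∈ AddSubgroup.closure F :=
    mem_closure P D hD hdense _ fun p hp p' hp' hpp =>
      AddSubgroup.subset_closure ⟨p, hp, p', hp', rfl, by linarith⟩
  let Φ : ℂ → ℤ × ℤ := fun p => if hp : p ∈ P then φ ⟨p - p0, hG p hp p0 hp0⟩ else 0
  have hΦ : ∀ p (hp : p ∈ P), ∀ q (hq : q ∈ P), Φ p - Φ q = φ ⟨p - q, hG p hp q hq⟩ := by
    intro p hp q hq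
    simp only [Φ, dif_pos hp, dif_pos hq]
    rw [← map_sub]
    congr 1
    exact Subtype.ext (by simp)
  have hstep : ∀ p ∈ P, ∀ p' ∈ P, ‖p - p'‖ ≤ D →
      ‖(M : ℂ) * (p - p') - E (Φ p - Φ p')‖ ≤ η := by
    intro p hp p' hp' hpp
    rw [hΦ p hp p' hp']
    exact hφ (p - p') ⟨p, hp, p', hp', rfl, by linarith⟩
  have hM1 : (1 : ℝ) ≤ (M : ℝ) := by exact_mod_cast hM0
  have hMc : (((M : ℝ) : ℝ) : ℂ) = (M : ℂ) := by push_cast; rfl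
  have hdat : Dat P D (M : ℝ) η Φ c := by
    refine ⟨hD, hdense, hM1, hη0.le, min_le_left _ _, ?_, ?_, ?_, hc1, hc2, ?_, ?_, one⟩
    · have h1 : η ≤ 1 / (20 * (21 + 8 / D)) := min_le_right _ _
      have h2 : 0 < 21 + 8 / D := by positivity
      calc η * (21 + 8 / D) ≤ 1 / (20 * (21 + 8 / D)) * (21 + 8 / D) :=
            mul_le_mul_of_nonneg_right h1 h2.le
        _ = 1 / 20 := by field_simp
    · refine lip P D hD hdense (U (M : ℝ) Φ) η hη0.le ?_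
      intro p hp p' hp' hpp
      have h1 := hstep p hp p' hp' hpp
      have e : U (M : ℝ) Φ p - U (M : ℝ) Φ p' = (M : ℂ) * (p - p') - E (Φ p - Φ p') := by
        rw [E_sub', U, U, hMc]; ring
      rw [e]
      exact h1
    · refine near P D hD hdense Φ (M : ℝ) hM1 ?_
      intro p hp p' hp' hpp
      rw [hMc]
      exact (hstep p hp p' hp' hpp).trans (min_le_left _ _)
    · intro q hq
      refine (hfin.image (fun d => d + q)).subset ?_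
      rintro p ⟨hp, hpq⟩
      exact ⟨p - q, ⟨p, hp, q, hq, rfl, hpq⟩, by simp⟩
    · intro p hp q hq p' hp' q' hq' he
      rw [hΦ p hp q hq, hΦ p' hp' q' hq']
      congr 1
      exact Subtype.ext he
  exact ⟨1 / (M : ℝ), gg P D (M : ℝ) Φ c, hdat.def1, hdat.loc⟩

end Pool.Agent.K4H16.Til
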